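import Mathlib
import Pool.Agent.Helper87.LD.Ext
import Pool.Agent.Helper87.LD.DegDefs

/-!
# LW: the combinations of families of integral forms
-/

set_option autoImplicit false

namespace Pool.Agent.Helper87.LW

open MvPolynomial Pool.Agent.Helper87.LD

/-- the combination of the family of forms with the integral coefficients `c` -/
noncomputable def lf {n m d : ℕ} {R : Type*} [CommRing R] (E : Fin m → R)
    (c : Fin m × Idx n d → ℤ) : Fin n → MvPolynomial (Fin n) R :=
  form (lc E fun j => (c j : R))

/-- the same with coefficients in the ring -/
noncomputable def lg {n m d : ℕ} {R : Type*} [CommRing R] (E : Fin m → R)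
    (c : Fin m × Idx n d → R) : Fin n → MvPolynomial (Fin n) R :=
  form (lc E c)

end Pool.Agent.Helper87.LW
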