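import Mathlib
import Pool.Agent.Helper87.LD.MainV
import Pool.Agent.Helper87.LW.Lf

/-!
# LW: the density of the good residue classes of tuples of families
-/

set_option autoImplicit false

namespace Pool.Agent.Helper87.LW

open MvPolynomial Pool.Agent.Helper87.LD

noncomputable section

/-- a finite set of primes with small product -/
theorem exists_primes_prodK (Pri : Set ℕ) (hdiv : ¬ Summable (fun q : Pri => (1 : ℝ) / (q : ℕ)))
    (κ p₀ : ℕ) (hκ : 0 < κ) (η : ℝ) (hη : 0 < η) :
    ∃ P : Finset ℕ, (∀ q ∈ P, q ∈ Pri ∧ p₀ ≤ q) ∧ ∏ q ∈ P, (1 - 1 / (κ * (q : ℝ))) ≤ η := by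
  classical
  set M : ℕ := max p₀ 1 with hM
  obtain ⟨u, hu⟩ : ∃ u : Finset Pri, (κ : ℝ) * (-Real.log η) + M < ∑ q ∈ u, (1 : ℝ) / (q : ℕ) := by
    by_contra h
    push Not at h
    exact hdiv (summable_of_sum_le (fun q => by positivity) h)
  set U : Finset ℕ := u.image (fun q : Pri => (q : ℕ)) with hU
  have h2 : ∑ q ∈ u, (1 : ℝ) / (q : ℕ) = ∑ q ∈ U, (1 : ℝ) / q := by
    rw [hU, Finset.sum_image]
    intro a _ b _ hab
    exact Subtype.ext hab
  rw [h2] at hu
  set P : Finset ℕ := U.filter (fun q => M ≤ q) with hP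
  have h3 : ∑ q ∈ U.filter (fun q => ¬ M ≤ q), (1 : ℝ) / q ≤ M := by
    have h4 : U.filter (fun q => ¬ M ≤ q) ⊆ Finset.range M := by
      intro q hq
      rw [Finset.mem_range]
      have := (Finset.mem_filter.1 hq).2
      omega
    calc ∑ q ∈ U.filter (fun q => ¬ M ≤ q), (1 : ℝ) / q ≤
        ∑ q ∈ U.filter (fun q => ¬ M ≤ q), (1 : ℝ) := by
          refine Finset.sum_le_sum fun q _ => ?_
          rcases Nat.eq_zero_or_pos q with h0 | h0
          · simp [h0]
          · rw [div_le_one (by exact_mod_cast h0)]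
            exact_mod_cast h0
      _ ≤ ∑ q ∈ Finset.range M, (1 : ℝ) :=
          Finset.sum_le_sum_of_subset_of_nonneg h4 fun _ _ _ => zero_le_one
      _ = M := by simp
  have h5 : (κ : ℝ) * (-Real.log η) < ∑ q ∈ P, (1 : ℝ) / q := by
    have := Finset.sum_filter_add_sum_filter_not U (fun q => M ≤ q) (fun q => (1 : ℝ) / q)
    rw [← this] at hu
    linarith
  have hκ' : (0 : ℝ) < κ := by exact_mod_cast hκ
  have hκ1 : (1 : ℝ) ≤ κ := by exact_mod_cast hκ
  refine ⟨P, ?_, ?_⟩
  · intro q hq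
    have h6 := Finset.mem_filter.1 hq
    obtain ⟨r, _, hr⟩ := Finset.mem_image.1 h6.1
    exact ⟨hr ▸ r.2, (le_max_left _ _).trans h6.2⟩
  · calc ∏ q ∈ P, (1 - 1 / (κ * (q : ℝ))) ≤
        ∏ q ∈ P, Real.exp (-(1 / (κ * (q : ℝ)))) := by
          refine Finset.prod_le_prod (fun q hq => ?_) fun q _ => ?_
          · have h6 : (1 : ℝ) ≤ q := by
              exact_mod_cast (le_max_right _ _).trans (Finset.mem_filter.1 hq).2
            rw [sub_nonneg, div_le_one (by positivity)]
            nlinarith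
          · have := Real.add_one_le_exp (-(1 / (κ * (q : ℝ))))
            linarith
      _ = Real.exp (-((1 / κ) * ∑ q ∈ P, (1 : ℝ) / q)) := by
          rw [← Real.exp_sum]
          congr 1
          rw [Finset.mul_sum, ← Finset.sum_neg_distrib]
          refine Finset.sum_congr rfl fun q _ => ?_
          rw [one_div_mul_one_div]
      _ ≤ Real.exp (Real.log η) := by
          refine Real.exp_le_exp.2 ?_
          rw [one_div, neg_le, ← div_eq_inv_mul, le_div_iff₀ hκ']
          linarith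
      _ = η := Real.exp_log hη

/-- the coefficients of a tuple of families of forms of degrees `d a` -/
abbrev IdxW (n m : ℕ) {s : ℕ} (d : Fin s → ℕ) : Type := (a : Fin s) × (Fin m × Idx n (d a))

/-- the bad residue classes of tuples of families -/
def BadW (n m D q : ℕ) {s : ℕ} (d : Fin s → ℕ) (E : Fin m → ZMod q) :
    Set (IdxW n m d → ZMod q) :=
  {c | ¬ ∃ _ : Fact q.Prime, ∀ a, GoodD D (lg E fun j => c ⟨a, j⟩)}

theorem badW_ncard {n m s D : ℕ} {d : Fin s → ℕ} {q : ℕ} [hq : Fact q.Prime] (E : Fin m → ZMod q)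
    (hE : E ≠ 0) {κ : ℕ} (hκ : 0 < κ) (h : ∏ a, q ^ Fintype.card (Idx n (d a)) ≤
      κ * q * ∏ a, Nat.card {c : Idx n (d a) → ZMod q // GoodD D (form c)}) :
    ((BadW n m D q d E).ncard : ℝ) ≤
      (1 - 1 / (κ * (q : ℝ))) * (q : ℝ) ^ Fintype.card (IdxW n m d) := by
  classical
  obtain ⟨j₀, hj₀⟩ := Function.ne_iff.1 hE
  let f : (IdxW n m d → ZMod q) →+ ((a : Fin s) → Idx n (d a) → ZMod q) :=
    { toFun := fun c a => lc E fun j => c ⟨a, j⟩
      map_zero' := by
        funext a i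
        simp [lc]
      map_add' := fun a b => by
        funext a i
        simp [lc, mul_add, Finset.sum_add_distrib] }
  have hsurj : ∀ b : (a : Fin s) → Idx n (d a) → ZMod q, b ∈ Set.range f := by
    intro b
    refine ⟨fun j => if j.2.1 = j₀ then (E j₀)⁻¹ * b j.1 j.2.2 else 0, ?_⟩
    funext a i
    change lc E (fun j : Fin m × Idx n (d a) => if j.1 = j₀ then (E j₀)⁻¹ * b a j.2 else 0) i =
      b a i
    rw [lc, Finset.sum_eq_single j₀]
    · simp only [if_true]
      rw [mul_inv_cancel_left₀ hj₀]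
    · intro j _ hj
      simp [hj]
    · intro h
      exact absurd (Finset.mem_univ _) h
  set T₀ : (a : Fin s) → Finset (Idx n (d a) → ZMod q) := fun a =>
    Finset.univ.filter fun b => GoodD D (form b) with hT₀
  set T : Finset ((a : Fin s) → Idx n (d a) → ZMod q) := Fintype.piFinset T₀ with hT
  have h2 := fib_card f Finset.univ T (fun b _ => hsurj b) (fun _ => Finset.mem_univ _)
    (Finset.subset_univ _)
  rw [Finset.card_univ, Fintype.card_pi, Fintype.card_fun, ZMod.card] at h2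
  simp only [Fintype.card_fun, ZMod.card] at h2
  set U : Finset (IdxW n m d → ZMod q) := Finset.univ.filter (fun a => f a ∈ T)
    with hU
  have h3 : BadW n m D q d E = (↑U : Set (IdxW n m d → ZMod q))ᶜ := by
    ext c
    rw [Set.mem_compl_iff, Finset.mem_coe, hU, Finset.mem_filter, hT, Fintype.mem_piFinset]
    constructor
    · rintro h ⟨_, h'⟩
      exact h ⟨hq, fun a => (Finset.mem_filter.1 (h' a)).2⟩
    · rintro h ⟨_, h'⟩
      exact h ⟨Finset.mem_univ _, fun a => Finset.mem_filter.2 ⟨Finset.mem_univ _, h' a⟩⟩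
  have h4 := Set.ncard_add_ncard_compl (↑U : Set (IdxW n m d → ZMod q))
  rw [← h3, Set.ncard_coe_finset, Nat.card_eq_fintype_card, Fintype.card_fun, ZMod.card] at h4
  have h5 : ∀ a, Nat.card {c : Idx n (d a) → ZMod q // GoodD D (form c)} = (T₀ a).card := by
    intro a
    rw [Nat.card_eq_fintype_card, Fintype.card_subtype]
  have h5' : T.card = ∏ a, (T₀ a).card := by
    rw [hT, Fintype.card_piFinset]
  rw [Finset.prod_congr rfl fun a _ => h5 a, ← h5'] at h
  have hq0 : (0 : ℝ) < q := by exact_mod_cast hq.out.pos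
  have hκ0 : (0 : ℝ) < κ := by exact_mod_cast hκ
  have h6 : ∏ a, (q : ℝ) ^ Fintype.card (Idx n (d a)) ≤ κ * q * (T.card : ℝ) := by
    exact_mod_cast h
  have h9 : (U.card : ℝ) + ((BadW n m D q d E).ncard : ℝ) =
      (q : ℝ) ^ Fintype.card (IdxW n m d) := by exact_mod_cast h4
  have h10 : (U.card : ℝ) * ∏ a, (q : ℝ) ^ Fintype.card (Idx n (d a)) =
      (q : ℝ) ^ Fintype.card (IdxW n m d) * T.card := by exact_mod_cast h2
  have h11 : 1 / (κ * (q : ℝ)) * (q : ℝ) ^ Fintype.card (IdxW n m d) ≤ (U.card : ℝ) := by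
    rw [one_div, inv_mul_le_iff₀ (by positivity)]
    have hpos : (0 : ℝ) < ∏ a, (q : ℝ) ^ Fintype.card (Idx n (d a)) :=
      Finset.prod_pos fun a _ => by positivity
    refine le_of_mul_le_mul_right ?_ hpos
    have h12 := mul_le_mul_of_nonneg_left h6
      (by positivity : (0 : ℝ) ≤ (q : ℝ) ^ Fintype.card (IdxW n m d))
    calc (q : ℝ) ^ Fintype.card (IdxW n m d) * ∏ a, (q : ℝ) ^ Fintype.card (Idx n (d a))
        ≤ (q : ℝ) ^ Fintype.card (IdxW n m d) * (κ * q * (T.card : ℝ)) := h12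
      _ = κ * q * ((q : ℝ) ^ Fintype.card (IdxW n m d) * T.card) := by ring
      _ = κ * q * (U.card : ℝ) * ∏ a, (q : ℝ) ^ Fintype.card (Idx n (d a)) := by
          rw [← h10]; ring
  linarith

/-- over the prime field -/
theorem goodD_one {n p : ℕ} [hp : Fact p.Prime] {F : Fin n → MvPolynomial (Fin n) (ZMod p)}
    (hF : Good F) : GoodD 1 F := by
  classical
  intro k _ _ φ hk x hx
  have hinj : Function.Injective φ := φ.injective
  have hsurj : Function.Surjective φ := by
    refine ((Nat.bijective_iff_injective_and_card φ).2 ⟨hinj, ?_⟩).2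
    have h1 : Nat.card (ZMod p) = p := by rw [Nat.card_eq_fintype_card, ZMod.card]
    rw [pow_one] at hk
    exact le_antisymm (Nat.card_le_card_of_injective _ hinj) (by rw [h1]; exact hk)
  choose y hy using fun i => hsurj (x i)
  have hxy : x = fun i => φ (y i) := funext fun i => (hy i).symm
  have hy0 : y ≠ 0 := by
    rintro rfl
    apply hx
    rw [hxy]
    funext i
    exact map_zero φ
  obtain ⟨h1, h2⟩ := hF y hy0
  have hev : ∀ z : Fin n → ZMod p, ev (fun i => map φ (F i)) (fun i => φ (z i)) =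
      fun i => φ (ev F z i) := fun z => pmap_map φ F z
  have hevi : ∀ m, (ev fun i => map φ (F i))^[m] x = fun i => φ ((ev F)^[m] y i) := by
    intro m
    rw [hxy]
    exact pmap_map_iterate φ F m y
  have hjac : ∀ w : Fin n → ZMod p, (jac (fun i => map φ (F i)) x).mulVec (fun i => φ (w i)) =
      fun i => φ ((jac F y).mulVec w i) := by
    intro w
    funext i
    simp only [Matrix.mulVec, dotProduct, jac, Matrix.of_apply, map_sum, map_mul]
    refine Finset.sum_congr rfl fun j _ => ?_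
    rw [pderiv_map, hxy, eval_map, eval₂_comp]
    rfl
  refine ⟨?_, ?_⟩
  · intro h
    apply h1
    rw [hxy, hev] at h
    funext i
    have h3 := congrFun h i
    exact hinj (h3.trans (map_zero φ).symm)
  · rintro ⟨m, hm, t, ht, hmt⟩
    obtain ⟨t', rfl⟩ := hsurj t
    have ht' : t' ≠ 0 := by
      rintro rfl
      exact ht (map_zero φ)
    have hP : PPer F y := by
      refine ⟨m, hm, t', ht', ?_⟩
      rw [hevi] at hmt
      funext i
      apply hinj
      have h3 := congrFun hmt i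
      simp only [Pi.smul_apply, smul_eq_mul] at h3 ⊢
      rw [h3, map_mul, ← hy i]
    intro z hz
    obtain ⟨u, hu⟩ := hz
    choose w hw using fun i => hsurj (z i)
    obtain ⟨u', rfl⟩ := hsurj u
    have hzw : z = fun i => φ (w i) := funext fun i => (hw i).symm
    have h3 : (jac F y).mulVec w = u' • ev F y := by
      rw [hzw, hjac, hxy, hev] at hu
      funext i
      apply hinj
      have h4 := congrFun hu i
      simp only [Pi.smul_apply, smul_eq_mul] at h4 ⊢
      rw [h4, map_mul]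
    obtain ⟨v, hv⟩ := h2 hP w ⟨u', h3⟩
    refine ⟨φ v, ?_⟩
    rw [hzw, hv, hxy]
    funext i
    simp only [Pi.smul_apply, smul_eq_mul, map_mul]

/-- the density of the good classes of `s`-tuples is at least `1 / (κ p)` -/
def DensOK (n D s : ℕ) : Prop :=
  ∃ κ p₀ : ℕ, 0 < κ ∧ ∀ (p : ℕ) [Fact p.Prime], p₀ ≤ p → ∃ d₀ : ℕ, ∀ d : Fin s → ℕ,
    (∀ a, d₀ ≤ d a) → ∏ a, p ^ Fintype.card (Idx n (d a)) ≤
      κ * p * ∏ a, Nat.card {c : Idx n (d a) → ZMod p // GoodD D (form c)}

/-- the case of the rational points of `ℙ³` -/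
theorem densOK_three : DensOK 4 1 1 := by
  classical
  refine ⟨4096, 5, by norm_num, fun p _ hp =>
    ⟨2 * Nat.card (Projectivization (ZMod p) (Fin 4 → ZMod p)), fun d hd => ?_⟩⟩
  have h1 := good_density (n := 4) (by norm_num) hp (d 0) (hd 0)
  rw [Fin.prod_univ_one, Fin.prod_univ_one]
  have h2 : Nat.card {c : Idx 4 (d 0) → ZMod p // Good (form c)} ≤
      Nat.card {c : Idx 4 (d 0) → ZMod p // GoodD 1 (form c)} := by
    rw [Nat.card_eq_fintype_card, Nat.card_eq_fintype_card]
    exact Fintype.card_subtype_mono _ _ fun c hc => goodD_one hc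
  have h3 : p ^ (4 - 3) = p := pow_one p
  rw [h3] at h1
  exact h1.trans (Nat.mul_le_mul_left _ h2)

/-- a positive density for one map gives a positive density for tuples -/
theorem densOK_of_const {n D : ℕ} (h : ∃ κ p₀ : ℕ, 0 < κ ∧ ∀ (p : ℕ) [Fact p.Prime], p₀ ≤ p →
    ∃ d₀ : ℕ, ∀ d, d₀ ≤ d → p ^ Fintype.card (Idx n d) ≤
      κ * Nat.card {c : Idx n d → ZMod p // GoodD D (form c)}) (s : ℕ) : DensOK n D s := by
  obtain ⟨κ, p₀, hκ, h⟩ := h
  refine ⟨κ ^ s, p₀, pow_pos hκ s, fun p hp hpp => ?_⟩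
  obtain ⟨d₀, hd₀⟩ := h p hpp
  refine ⟨d₀, fun d hd => ?_⟩
  refine (Finset.prod_le_prod' fun a _ => hd₀ (d a) (hd a)).trans ?_
  rw [Finset.prod_mul_distrib, Finset.prod_const, Finset.card_univ, Fintype.card_fin]
  have h1 : κ ^ s * 1 ≤ κ ^ s * p := Nat.mul_le_mul_left _ hp.out.one_lt.le
  rw [mul_one] at h1
  exact Nat.mul_le_mul_right _ h1

end

end Pool.Agent.Helper87.LW
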