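import Mathlib
import Pool.Agent.Helper87.LW.Dens

/-!
# LW: almost all tuples of families consist of endomorphisms
-/

set_option autoImplicit false

namespace Pool.Agent.Helper87.LW

open MvPolynomial Pool.Agent.Helper87.LD

noncomputable section

theorem endo_boxW (n m : ℕ) {s : ℕ} (d : Fin s → ℕ) (e : Fin m → ℂ) (he : e ≠ 0) (η : ℝ)
    (hη : 0 < η) :
    ∃ B₀ : ℕ, ∀ B : ℕ, B₀ ≤ B →
      ({c : IdxW n m d → ℤ | (∀ i, |c i| ≤ (B : ℤ)) ∧
        ¬ ∀ a, ∀ z : Fin n → ℂ, (∀ i, eval z (lf e (fun j => c ⟨a, j⟩) i) = 0) → z = 0}.ncard : ℝ)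
        ≤ η * (2 * (B : ℝ) + 1) ^ Fintype.card (IdxW n m d) := by
  classical
  obtain ⟨j₀, hj₀⟩ := Function.ne_iff.1 he
  -- the product of the resultants of the combinations
  set P : MvPolynomial (IdxW n m d) ℂ :=
    ∏ a, (mac (lc (fun j => C (e j)) fun j : Fin m × Idx n (d a) => X ⟨a, j⟩ :
      Idx n (d a) → MvPolynomial (IdxW n m d) ℂ)).det with hP
  have hev : ∀ c : IdxW n m d → ℂ,
      eval c P = ∏ a, (mac (lc e fun j : Fin m × Idx n (d a) => c ⟨a, j⟩ :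
        Idx n (d a) → ℂ)).det := by
    intro c
    rw [hP, map_prod]
    refine Finset.prod_congr rfl fun a _ => ?_
    rw [RingHom.map_det, RingHom.mapMatrix_apply, mac_map]
    congr 2
    funext i
    rw [lc, lc, map_sum]
    refine Finset.sum_congr rfl fun j _ => ?_
    rw [map_mul, eval_C, eval_X]
  have hP0 : P ≠ 0 := by
    intro h
    have h1 := hev fun j => if j.2.1 = j₀ then
      ((pw (n := n) (d := d j.1) j.2.2 : ℤ) : ℂ) else 0
    have h2 : ∀ d : ℕ, (lc e (fun j : Fin m × Idx n d => if j.1 = j₀ then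
        ((pw (n := n) (d := d) j.2 : ℤ) : ℂ) else 0) : Idx n d → ℂ) =
        fun i => e j₀ * ((pw (n := n) (d := d) i : ℤ) : ℂ) := by
      intro d
      funext i
      rw [lc, Finset.sum_eq_single j₀]
      · simp
      · intro j _ hj
        simp [hj]
      · intro h
        exact absurd (Finset.mem_univ _) h
    have h3 : ∀ d : ℕ, mac (fun i => e j₀ * ((pw (n := n) (d := d) i : ℤ) : ℂ)) =
        e j₀ • (1 : Matrix _ _ ℂ) := by
      intro d
      have h4 : (1 : Matrix (Mon n d) (Mon n d) ℂ) = mac fun i => ((pw (n := n) (d := d) i : ℤ) : ℂ) := by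
        have h5 := mac_map (Int.castRingHom ℂ) (pw (n := n) (d := d))
        rw [mac_pw] at h5
        rw [← Matrix.map_one (Int.castRingHom ℂ) (map_zero _) (map_one _), h5]
        rfl
      rw [h4]
      ext a b
      rw [Matrix.smul_apply, mac, mac, Matrix.of_apply, Matrix.of_apply, col, col]
      have h6 : form (fun i => e j₀ * ((pw (n := n) (d := d) i : ℤ) : ℂ)) (pick b) =
          C (e j₀) * form (fun i => ((pw (n := n) (d := d) i : ℤ) : ℂ)) (pick b) := by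
        simp only [form, Finset.mul_sum, C_mul_monomial]
      rw [h6, mul_left_comm, coeff_C_mul, smul_eq_mul]
    rw [h, map_zero] at h1
    obtain ⟨a, -, ha⟩ := Finset.prod_eq_zero_iff.1 h1.symm
    rw [h2, h3, Matrix.det_smul, Matrix.det_one, mul_one] at ha
    exact pow_ne_zero _ hj₀ ha
  obtain ⟨D, hD⟩ := zeros_boxC hP0
  obtain ⟨B₀, hB₀⟩ := exists_nat_gt ((D : ℝ) / η)
  refine ⟨B₀, fun B hB => ?_⟩
  have h1 := hD B
  have hB1 : (0 : ℝ) < 2 * (B : ℝ) + 1 := by positivity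
  have h2 : {c : IdxW n m d → ℤ | (∀ i, |c i| ≤ (B : ℤ)) ∧
      ¬ ∀ a, ∀ z : Fin n → ℂ, (∀ i, eval z (lf e (fun j => c ⟨a, j⟩) i) = 0) → z = 0} ⊆
        {c : IdxW n m d → ℤ | (∀ i, |c i| ≤ (B : ℤ)) ∧
          eval (fun i => (c i : ℂ)) P = 0} := by
    rintro c ⟨h3, h4⟩
    refine ⟨h3, ?_⟩
    by_contra h5
    rw [hev] at h5
    refine h4 fun a z hz => no_zeroC _ ?_ z hz
    exact fun h6 => h5 (Finset.prod_eq_zero (Finset.mem_univ a) h6)
  have hfin : {c : IdxW n m d → ℤ | (∀ i, |c i| ≤ (B : ℤ)) ∧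
      eval (fun i => (c i : ℂ)) P = 0}.Finite := by
    refine (Set.Finite.pi' (fun _ : IdxW n m d =>
      Set.finite_Icc (-(B : ℤ)) B)).subset ?_
    rintro c ⟨h3, -⟩ i
    exact abs_le.1 (h3 i)
  have h3 : ({c : IdxW n m d → ℤ | (∀ i, |c i| ≤ (B : ℤ)) ∧
      ¬ ∀ a, ∀ z : Fin n → ℂ, (∀ i, eval z (lf e (fun j => c ⟨a, j⟩) i) = 0) → z = 0}.ncard : ℝ) ≤
      ({c : IdxW n m d → ℤ | (∀ i, |c i| ≤ (B : ℤ)) ∧
        eval (fun i => (c i : ℂ)) P = 0}.ncard : ℝ) := by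
    exact_mod_cast Set.ncard_le_ncard h2 hfin
  refine h3.trans ?_
  have h5 : (D : ℝ) ≤ η * (2 * (B : ℝ) + 1) := by
    have h6 : (B₀ : ℝ) ≤ B := by exact_mod_cast hB
    rw [div_lt_iff₀ hη] at hB₀
    nlinarith
  refine le_of_mul_le_mul_right (h1.trans ?_) hB1
  have h7 := mul_le_mul_of_nonneg_right h5
    (by positivity : (0 : ℝ) ≤ (2 * (B : ℝ) + 1) ^ Fintype.card (IdxW n m d))
  linarith

end

end Pool.Agent.Helper87.LW
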