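import Mathlib
import Pool.Agent.Helper87.LD.DegDefs

/-!
# LW: almost all endomorphisms, points of bounded degree, products

The definition of `GoodD` is in `LD/DegDefs.lean`.
-/
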