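import Mathlib
import Pool.Agent.Helper87.LW.Defs

/-!
# LW: a form without zeros over the fields with at most `p ^ D` elements
-/

set_option autoImplicit false

namespace Pool.Agent.Helper87.LW

open MvPolynomial

variable {p : ℕ} [hp : Fact p.Prime]

/-- the elements of a field with at most `p ^ D` elements -/
theorem pow_card_factorial (D : ℕ) {κ : Type} [Field κ] [Finite κ] [CharP κ p]
    (hκ : Nat.card κ ≤ p ^ D) (x : κ) : x ^ (p ^ D.factorial) = x := by
  classical
  have := Fintype.ofFinite κ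
  obtain ⟨m, -, hm⟩ := FiniteField.card κ p
  have h1 : (m : ℕ) ≤ D := by
    rw [Nat.card_eq_fintype_card, hm] at hκ
    exact (Nat.pow_le_pow_iff_right hp.out.one_lt).1 hκ
  obtain ⟨r, hr⟩ : (m : ℕ) ∣ D.factorial := Nat.dvd_factorial m.pos h1
  rw [hr, pow_mul, ← hm]
  exact FiniteField.pow_card_pow r x

/-- a form without zeros over the fields with at most `p ^ D` elements -/
theorem exists_anisoD (D n : ℕ) :
    ∃ (e : ℕ) (g : MvPolynomial (Fin n) ℤ), ¬ p ∣ e ∧ g.IsHomogeneous e ∧
      ∀ (κ : Type) [Field κ] [Finite κ] [CharP κ p], Nat.card κ ≤ p ^ D →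
        ∀ x : Fin n → κ, x ≠ 0 → aeval x g ≠ 0 := by
  have hpp : p.Prime := hp.out
  set N := p ^ D.factorial with hN
  have hN2 : 2 ≤ N := by
    have h1 : p ^ 1 ≤ p ^ D.factorial := Nat.pow_le_pow_right hpp.pos (Nat.factorial_pos D)
    rw [pow_one] at h1
    exact hpp.two_le.trans h1
  have hpN : p ∣ N := dvd_pow_self p (Nat.factorial_pos D).ne'
  induction n with
  | zero =>
    refine ⟨1, 0, ?_, isHomogeneous_zero _ _ _, fun κ _ _ _ _ x hx =>
      absurd (Subsingleton.elim x 0) hx⟩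
    rw [Nat.dvd_one]
    exact hpp.ne_one
  | succ n ih =>
    obtain ⟨e, g, he, hg, hgx⟩ := ih
    have he0 : e ≠ 0 := by rintro rfl; exact he (dvd_zero p)
    obtain ⟨u, hu⟩ : ∃ u : MvPolynomial (Fin (n + 1)) ℤ, u = rename Fin.succ g := ⟨_, rfl⟩
    obtain ⟨v, hv⟩ : ∃ v : MvPolynomial (Fin (n + 1)) ℤ, v = X 0 ^ e := ⟨_, rfl⟩
    have hue : u.IsHomogeneous e := by rw [hu]; exact hg.rename_isHomogeneous
    have hve : v.IsHomogeneous e := by
      have := (isHomogeneous_X ℤ (0 : Fin (n + 1))).pow e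
      rwa [one_mul, ← hv] at this
    refine ⟨(N + 1) * e, u ^ (N + 1) - u ^ 2 * v ^ (N - 1) + v ^ (N + 1), ?_, ?_, ?_⟩
    · intro h
      rcases hpp.dvd_mul.1 h with h1 | h1
      · have h2 : p ∣ 1 := (Nat.dvd_add_right hpN).1 h1
        exact hpp.ne_one (Nat.dvd_one.1 h2)
      · exact he h1
    · refine IsHomogeneous.add (IsHomogeneous.sub ?_ ?_) ?_
      · rw [mul_comm]; exact hue.pow _
      · have h1 := (hue.pow 2).mul (hve.pow (N - 1))
        have h2 : e * 2 + e * (N - 1) = (N + 1) * e := by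
          obtain ⟨r, hr⟩ : ∃ r, N = r + 1 := ⟨N - 1, by omega⟩
          rw [hr, Nat.add_sub_cancel]
          ring
        rwa [h2] at h1
      · rw [mul_comm]; exact hve.pow _
    · intro κ _ _ _ hκ x hx h0
      have hpow : ∀ y : κ, y ^ N = y := pow_card_factorial D hκ
      obtain ⟨a, ha⟩ : ∃ a : κ, a = aeval x u := ⟨_, rfl⟩
      obtain ⟨b, hb⟩ : ∃ b : κ, b = aeval x v := ⟨_, rfl⟩
      have h1 : a ^ 2 - a ^ 2 * b ^ (N - 1) + b ^ 2 = 0 := by
        rw [map_add, map_sub, map_mul, map_pow, map_pow, map_pow, map_pow, ← ha, ← hb, pow_succ,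
          hpow, pow_succ b N, hpow] at h0
        rw [← h0]
        ring
      have hbx : b = x 0 ^ e := by rw [hb, hv, map_pow, aeval_X]
      have hax : a = aeval (fun i => x (Fin.succ i)) g := by
        rw [ha, hu, aeval_rename]
        rfl
      by_cases hx0 : x 0 = 0
      · have hb0 : b = 0 := by rw [hbx, hx0, zero_pow he0]
        rw [hb0, zero_pow (by omega), mul_zero, sub_zero, zero_pow two_ne_zero, add_zero] at h1
        have ha0 : a = 0 := pow_eq_zero_iff two_ne_zero |>.1 h1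
        have h2 : (fun i => x (Fin.succ i)) ≠ 0 := by
          intro h3
          apply hx
          funext i
          refine Fin.cases hx0 (fun j => congrFun h3 j) i
        exact hgx κ hκ _ h2 (by rw [← hax]; exact ha0)
      · have hb0 : b ≠ 0 := by rw [hbx]; exact pow_ne_zero _ hx0
        have h2 : b ^ (N - 1) = 1 := by
          have h3 := hpow b
          obtain ⟨r, hr⟩ : ∃ r, N = r + 1 := ⟨N - 1, by omega⟩
          rw [hr, pow_succ] at h3
          rw [hr, Nat.add_sub_cancel]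
          exact mul_right_cancel₀ hb0 (by rw [h3, one_mul])
        rw [h2, mul_one, sub_self, zero_add] at h1
        exact hb0 (pow_eq_zero_iff two_ne_zero |>.1 h1)

/-- a form without zeros which makes the degree prime to `p` -/
theorem exists_multD (D n d : ℕ) :
    ∃ (e : ℕ) (g : MvPolynomial (Fin n) ℤ), ¬ p ∣ e + d ∧ g.IsHomogeneous e ∧
      ∀ (κ : Type) [Field κ] [Finite κ] [CharP κ p], Nat.card κ ≤ p ^ D →
        ∀ x : Fin n → κ, x ≠ 0 → aeval x g ≠ 0 := by
  by_cases h : p ∣ d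
  · obtain ⟨e, g, he, hg, hx⟩ := exists_anisoD (p := p) D n
    exact ⟨e, g, fun h1 => he ((Nat.dvd_add_left h).1 h1), hg, hx⟩
  · refine ⟨0, 1, by rwa [zero_add], isHomogeneous_one _ _, fun κ _ _ _ _ x _ => ?_⟩
    rw [map_one]; exact one_ne_zero

end Pool.Agent.Helper87.LW
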