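import Mathlib
import Pool.Agent.Helper87.LD.Local
import Pool.Agent.Helper87.LW.Mult

/-!
# LW: good tuples of forms over a field, with the multiplier
-/

set_option autoImplicit false

namespace Pool.Agent.Helper87.LW

open MvPolynomial Pool.Agent.Helper87.LD
open Pool.Agent.Helper86.DML (pmap)

variable {n d : ℕ} {k : Type*} [Field k]

theorem mult_ne_zero {F : Fin n → MvPolynomial (Fin n) k} {g : MvPolynomial (Fin n) k}
    (hgx : ∀ x : Fin n → k, x ≠ 0 → eval x g ≠ 0) (hG : Good F) {y : Fin n → k} (hy : y ≠ 0) :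
    pmap (fun i => g * F i) y ≠ 0 := by
  intro h
  apply (hG y hy).1
  funext i
  have h2 := congrFun h i
  rw [pmap, map_mul] at h2
  exact (mul_eq_zero.1 h2).resolve_left (hgx _ hy)

theorem mult_iterate_ne_zero {F : Fin n → MvPolynomial (Fin n) k} {g : MvPolynomial (Fin n) k}
    (hgx : ∀ x : Fin n → k, x ≠ 0 → eval x g ≠ 0) (hG : Good F) {y : Fin n → k} (hy : y ≠ 0)
    (m : ℕ) : (pmap fun i => g * F i)^[m] y ≠ 0 := by
  induction m with
  | zero => exact hy
  | succ m ih =>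
    rw [Function.iterate_succ_apply']
    exact mult_ne_zero hgx hG ih

theorem mult_det {e : ℕ} {F : Fin n → MvPolynomial (Fin n) k} {g : MvPolynomial (Fin n) k}
    (hF : ∀ i, (F i).IsHomogeneous d) (hg : g.IsHomogeneous e) (hpe : ((e + d : ℕ) : k) ≠ 0)
    (hgx : ∀ x : Fin n → k, x ≠ 0 → eval x g ≠ 0) (hG : Good F) {y : Fin n → k} (hy : y ≠ 0)
    {ℓ : ℕ} (hℓ : 1 ≤ ℓ) (hper : (pmap fun i => g * F i)^[ℓ] y = y) :
    (Matrix.of fun i j => eval y (pderiv j (g * F i))).det ≠ 0 := by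
  obtain ⟨t, ht, htu⟩ := iterate_mult hF g y ℓ
  have ht0 : t ≠ 0 := (htu fun m _ => isUnit_iff_ne_zero.2
    (hgx _ (mult_iterate_ne_zero hgx hG hy m))).ne_zero
  have hPP : PPer F y := by
    refine ⟨ℓ, hℓ, t⁻¹, inv_ne_zero ht0, ?_⟩
    have h6 : (fun j => t * (pmap F)^[ℓ] y j) = y := by rw [← ht]; exact hper
    funext j
    have h7 := congrFun h6 j
    rw [Pi.smul_apply, smul_eq_mul, ← h7, inv_mul_cancel_left₀ ht0]
    rfl
  exact det_ne_zero hF hg hpe _ (hgx _ hy) (hG _ hy).1 ((hG _ hy).2 hPP)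

end Pool.Agent.Helper87.LW
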