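import Mathlib
import Pool.Agent.Helper26.FU.Loc
import Pool.Agent.Helper87.LW.Field

/-!
# LW: maps which are good modulo `p` are good over the finite extensions of `ℚ_p`
-/

set_option autoImplicit false

namespace Pool.Agent.Helper87.LW

open MvPolynomial Pool.Agent.Helper87.LD
open Pool.Agent.Helper86.DML
open Pool.Agent.Helper26.FD (adjoin_finite p_mem_maximal)
open Pool.Agent.Helper26.FU (norm_add_le' isUnit_of_isIntegral_inv GoodPad norm_det_map card_residue_le
  norm_adjoin_le finrank_subalgebra_le)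

noncomputable section

variable {p : ℕ} [hp : Fact p.Prime] {n d : ℕ}

/-- the reduction of integral vectors with coordinates in an algebra of dimension at most `D` -/
theorem exists_red {D : ℕ} (L : Subalgebra ℚ_[p] (PadicAlgCl p)) [FiniteDimensional ℚ_[p] L]
    (hL : Module.finrank ℚ_[p] L ≤ D) (x : Fin n → PadicAlgCl p) (hx : ∀ i, ‖x i‖ ≤ 1)
    (hxL : ∀ i, x i ∈ L) :
    ∃ (O : Subalgebra ℤ_[p] (PadicAlgCl p)) (κ : Type) (_ : Field κ) (_ : Finite κ)
      (_ : CharP κ p) (π : O →+* κ), Nat.card κ ≤ p ^ D ∧ (∀ i, x i ∈ O) ∧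
      (∀ z : O, ‖(z : PadicAlgCl p)‖ ≤ 1) ∧ ∀ z : O, π z = 0 ↔ ‖(z : PadicAlgCl p)‖ < 1 := by
  classical
  have hA1 : ∀ a ∈ Set.range x, ‖a‖ ≤ 1 := by
    rintro a ⟨i, rfl⟩
    exact hx i
  obtain ⟨hfin, hfree⟩ := adjoin_finite (p := p) (Set.finite_range x)
    (fun a ha => isIntegral_of_norm_le_one _ (hA1 a ha))
  let O : Subalgebra ℤ_[p] (PadicAlgCl p) := Algebra.adjoin ℤ_[p] (Set.range x)
  have hO1 : ∀ z : O, ‖(z : PadicAlgCl p)‖ ≤ 1 := fun z => norm_adjoin_le hA1 z.2
  have hOL : ∀ z ∈ O, z ∈ L.toSubmodule := by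
    intro z hz
    have h1 : O ≤ L.restrictScalars ℤ_[p] := Algebra.adjoin_le (by
      rintro a ⟨i, rfl⟩
      exact hxL i)
    exact h1 hz
  have hrank : Module.finrank ℤ_[p] O ≤ D := by
    have : FiniteDimensional ℚ_[p] L.toSubmodule :=
      (inferInstance : FiniteDimensional ℚ_[p] L)
    exact (finrank_subalgebra_le O L.toSubmodule hOL).trans hL
  let m : Ideal O :=
    { carrier := {z | ‖(z : PadicAlgCl p)‖ < 1}
      add_mem' := fun {a b} ha hb => (norm_add_le' _ _).trans_lt (max_lt ha hb)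
      zero_mem' := by
        change ‖((0 : O) : PadicAlgCl p)‖ < 1
        rw [ZeroMemClass.coe_zero, norm_zero]
        exact zero_lt_one
      smul_mem' := fun c z hz => by
        change ‖((c * z : O) : PadicAlgCl p)‖ < 1
        rw [MulMemClass.coe_mul, norm_mul]
        calc _ ≤ 1 * ‖(z : PadicAlgCl p)‖ :=
              mul_le_mul_of_nonneg_right (hO1 c) (norm_nonneg _)
          _ < 1 := by rw [one_mul]; exact hz }
  have hmem : ∀ z : O, z ∈ m ↔ ‖(z : PadicAlgCl p)‖ < 1 := fun z => Iff.rfl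
  have hm : m.IsMaximal := by
    rw [Ideal.isMaximal_iff]
    refine ⟨fun h => ?_, fun J z _ hz hzJ => ?_⟩
    · rw [hmem, OneMemClass.coe_one, norm_one] at h
      exact lt_irrefl _ h
    · have h1 : ‖(z : PadicAlgCl p)‖ = 1 := le_antisymm (hO1 z) (not_lt.1 fun h => hz ((hmem z).2 h))
      have h2 : (z : PadicAlgCl p) ≠ 0 := by
        intro h
        rw [h, norm_zero] at h1
        exact zero_ne_one h1
      have h3 : IsUnit z := isUnit_of_isIntegral_inv O z h2 (isIntegral_of_norm_le_one _ (by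
        rw [norm_inv, h1, inv_one]))
      have h4 := J.eq_top_of_isUnit_mem hzJ h3
      rw [h4]
      exact Submodule.mem_top
  let : Field (O ⧸ m) := Ideal.Quotient.field m
  obtain ⟨hfm, hcm⟩ := card_residue_le (p := p) m
  have hπp : Ideal.Quotient.mk m (p : O) = 0 := Ideal.Quotient.eq_zero_iff_mem.2 (p_mem_maximal m)
  have hpk : ((p : ℕ) : O ⧸ m) = 0 := by
    have h1 := hπp
    rw [map_natCast] at h1
    exact h1
  have hchar : CharP (O ⧸ m) p := ringChar.of_eq (CharP.ringChar_of_prime_eq_zero hp.out hpk)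
  refine ⟨O, O ⧸ m, inferInstance, hfm, hchar, Ideal.Quotient.mk m,
    hcm.trans (Nat.pow_le_pow_right hp.out.pos hrank), fun i => Algebra.subset_adjoin ⟨i, rfl⟩,
    hO1, fun z => ?_⟩
  rw [Ideal.Quotient.eq_zero_iff_mem, hmem]

/-- the forms multiplied with `g` -/
def mf {R : Type*} [CommRing R] (g : MvPolynomial (Fin n) ℤ) (c : Idx n d → R) :
    Fin n → MvPolynomial (Fin n) R := fun i => map (Int.castRingHom R) g * form c i

theorem map_mf {R S : Type*} [CommRing R] [CommRing S] (σ : R →+* S)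
    (g : MvPolynomial (Fin n) ℤ) (c : Idx n d → R) :
    (fun i => map σ (mf g c i)) = mf g fun j => σ (c j) := by
  funext i
  have h : σ.comp (Int.castRingHom R) = Int.castRingHom S := RingHom.ext_int _ _
  rw [mf, mf, map_mul, map_map, h, map_form]

theorem mf_isHomogeneous {R : Type*} [CommRing R] {g : MvPolynomial (Fin n) ℤ} {e : ℕ}
    (hg : g.IsHomogeneous e) (c : Idx n d → R) (i : Fin n) :
    (mf g c i).IsHomogeneous (e + d) := (hg.map _).mul (form_isHomogeneous c i)

/-- the multiplier has no zeros over the fields with at most `p ^ D` elements -/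
def Aniso (p D : ℕ) {n : ℕ} (g : MvPolynomial (Fin n) ℤ) : Prop :=
  ∀ (κ : Type) [Field κ] [Finite κ] [CharP κ p], Nat.card κ ≤ p ^ D →
    ∀ x : Fin n → κ, x ≠ 0 → aeval x g ≠ 0

theorem goodPad_of_goodD {D e : ℕ} {c : Idx n d → ℤ_[p]}
    (hG : GoodD D (form fun i => PadicInt.toZMod (c i))) {g : MvPolynomial (Fin n) ℤ}
    (hg : g.IsHomogeneous e) (hpe : ¬ p ∣ e + d) (hgx : Aniso p D g)
    (L : Subalgebra ℚ_[p] (PadicAlgCl p)) [FiniteDimensional ℚ_[p] L]
    (hL : Module.finrank ℚ_[p] L ≤ D) :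
    GoodPad (L : Set (PadicAlgCl p)) (mf g fun i => algebraMap ℤ_[p] (PadicAlgCl p) (c i)) ∧
    ∀ x : Fin n → PadicAlgCl p, (∀ i, x i ∈ L) → (∀ i, ‖x i‖ ≤ 1) → (∃ i, ‖x i‖ = 1) →
      ‖eval x (map (Int.castRingHom (PadicAlgCl p)) g)‖ = 1 := by
  classical
  have key : ∀ x : Fin n → PadicAlgCl p, (∀ i, x i ∈ L) → (∀ i, ‖x i‖ ≤ 1) → (∃ i, ‖x i‖ = 1) →
      ‖eval x (map (Int.castRingHom (PadicAlgCl p)) g)‖ = 1 ∧
      (∃ i, ‖eval x (mf g (fun i => algebraMap ℤ_[p] (PadicAlgCl p) (c i)) i)‖ = 1) ∧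
      ∀ m, 1 ≤ m → (∀ i, ‖(pmap (mf g fun i => algebraMap ℤ_[p] (PadicAlgCl p) (c i)))^[m] x i -
        x i‖ < 1) → ‖(Matrix.of fun i j => eval x (pderiv j
          (mf g (fun i => algebraMap ℤ_[p] (PadicAlgCl p) (c i)) i))).det‖ = 1 := by
    intro x hxL hx hx1
    obtain ⟨O, κ, _, _, _, π, hκ, hxO, hO1, hπ⟩ := exists_red L hL x hx hxL
    let ρ : O →+* PadicAlgCl p := O.val
    let x₀ : Fin n → O := fun i => ⟨x i, hxO i⟩
    let cO : Idx n d → O := fun i => algebraMap ℤ_[p] O (c i)
    let φ : ZMod p →+* κ := ZMod.castHom (dvd_refl p) κ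
    have hnorm : ∀ z : O, π z ≠ 0 → ‖(z : PadicAlgCl p)‖ = 1 := fun z hz =>
      le_antisymm (hO1 z) (not_lt.1 fun h => hz ((hπ z).2 h))
    have hgκ : ∀ y : Fin n → κ, y ≠ 0 → eval y (map (Int.castRingHom κ) g) ≠ 0 := by
      intro y hy
      have h1 := hgx κ hκ y hy
      rwa [aeval_def, ← eval_map, (RingHom.ext_int _ _ :
        (algebraMap ℤ κ) = Int.castRingHom κ)] at h1
    have hGκ := hG κ φ hκ
    have hpe' : ((e + d : ℕ) : κ) ≠ 0 := by
      rw [Ne, CharP.cast_eq_zero_iff κ p]
      exact hpe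
    have hy : (fun i => π (x₀ i)) ≠ 0 := by
      obtain ⟨i, hi⟩ := hx1
      intro h
      have h1 : π (x₀ i) = 0 := congrFun h i
      rw [hπ] at h1
      exact absurd hi h1.ne
    have hmapπ : (fun i => map π (mf g cO i)) = fun i => map (Int.castRingHom κ) g *
        map φ (form (fun i => PadicInt.toZMod (c i)) i) := by
      rw [map_mf]
      funext i
      rw [mf, map_form]
      congr 2
      funext j
      exact hom_padic_eq (π.comp (algebraMap ℤ_[p] O)) (c j)
    have hmapρ : (fun i => map ρ (mf g cO i)) =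
        mf g fun i => algebraMap ℤ_[p] (PadicAlgCl p) (c i) := by
      rw [map_mf]
      rfl
    have hFh : ∀ i, (map φ (form (fun i => PadicInt.toZMod (c i)) i)).IsHomogeneous d :=
      fun i => (form_isHomogeneous _ i).map φ
    have hgh : (map (Int.castRingHom κ) g).IsHomogeneous e := hg.map _
    refine ⟨?_, ?_, ?_⟩
    · have h1 : eval x (map (Int.castRingHom (PadicAlgCl p)) g) =
          ((eval x₀ (map (Int.castRingHom O) g) : O) : PadicAlgCl p) := by
        have h2 := eval_hom ρ (map (Int.castRingHom O) g) x₀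
        rw [map_map, (RingHom.ext_int _ _ : ρ.comp (Int.castRingHom O) =
          Int.castRingHom (PadicAlgCl p))] at h2
        exact h2.symm
      rw [h1]
      apply hnorm
      rw [eval_hom, map_map, (RingHom.ext_int _ _ : π.comp (Int.castRingHom O) =
          Int.castRingHom κ)]
      exact hgκ _ hy
    · have h1 := mult_ne_zero hgκ hGκ hy
      rw [← hmapπ, pmap_map] at h1
      obtain ⟨i, hi⟩ := Function.ne_iff.1 h1
      refine ⟨i, ?_⟩
      have h2 := hnorm _ hi
      have h3 := congrFun (pmap_map ρ (mf g cO) x₀) i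
      rw [hmapρ] at h3
      exact (congrArg norm h3).trans h2
    · intro m hm hper
      have h1 : (pmap fun i => map (Int.castRingHom κ) g *
          map φ (form (fun i => PadicInt.toZMod (c i)) i))^[m] (fun i => π (x₀ i)) =
          fun i => π (x₀ i) := by
        rw [← hmapπ, pmap_map_iterate]
        funext i
        rw [← sub_eq_zero, ← map_sub, hπ]
        have h2 := congrFun (pmap_map_iterate ρ (mf g cO) m x₀) i
        rw [hmapρ] at h2
        have h3 := hper i
        have h4 : (pmap (mf g fun i => algebraMap ℤ_[p] (PadicAlgCl p) (c i)))^[m] x i =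
            (((pmap (mf g cO))^[m] x₀ i : O) : PadicAlgCl p) := h2
        rw [h4] at h3
        exact h3
      have h2 := mult_det hFh hgh hpe' hgκ hGκ hy hm h1
      have h3 : π (Matrix.of fun i j => eval x₀ (pderiv j (mf g cO i))).det ≠ 0 := by
        rw [RingHom.map_det]
        have h4 : π.mapMatrix (Matrix.of fun i j => eval x₀ (pderiv j (mf g cO i))) =
            Matrix.of fun i j => eval (fun i => π (x₀ i)) (pderiv j (map (Int.castRingHom κ) g *
              map φ (form (fun i => PadicInt.toZMod (c i)) i))) := by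
          ext i j
          rw [RingHom.mapMatrix_apply, Matrix.map_apply, Matrix.of_apply, Matrix.of_apply,
            ← congrFun hmapπ i, pderiv_map, ← eval_hom]
        rw [h4]
        exact h2
      have h4 := hnorm _ h3
      have h5 := norm_det_map ρ (mf g cO) x₀
      have h6 : (Matrix.of fun i j => eval x (pderiv j
          (mf g (fun i => algebraMap ℤ_[p] (PadicAlgCl p) (c i)) i))).det =
          ρ (Matrix.of fun i j => eval x₀ (pderiv j (mf g cO i))).det := by
        rw [h5]
        have h7 : ∀ i, mf g (fun i => algebraMap ℤ_[p] (PadicAlgCl p) (c i)) i =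
            map ρ (mf g cO i) := fun i => (congrFun hmapρ i).symm
        simp only [h7]
        rfl
      rw [h6]
      exact h4
  exact ⟨fun x hxL hx hx1 => (key x hxL hx hx1).2, fun x hxL hx hx1 => (key x hxL hx hx1).1⟩

end

end Pool.Agent.Helper87.LW
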