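import Mathlib
import Pool.Agent.Helper26.FU.Core
import Pool.Agent.Helper26.FU.Loc
import Pool.Agent.Helper87.LW.Pad

/-!
# LW: the uniform dichotomy at a good prime, for products of maps and points over extensions of
bounded degree
-/

set_option autoImplicit false

namespace Pool.Agent.Helper87.LW

open MvPolynomial Pool.Agent.Helper87.LD
open Pool.Agent.Helper86.DML
open Pool.Agent.Helper26.FU (norm_add_le' norm_sum_le_of norm_ι ι GoodPad main_loc bd MultiHom
  expSet support_subset_expSet eval_multi)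

noncomputable section

variable {p : ℕ} [hp : Fact p.Prime] {n d : ℕ}

theorem norm_algebraMap_le (z : ℤ_[p]) : ‖algebraMap ℤ_[p] (PadicAlgCl p) z‖ ≤ 1 := by
  have h1 : algebraMap ℤ_[p] (PadicAlgCl p) z = ι z := rfl
  rw [h1, norm_ι]
  exact PadicInt.norm_le_one z

theorem algebraMap_mem' (L : Subalgebra ℚ_[p] (PadicAlgCl p)) (z : ℤ_[p]) :
    algebraMap ℤ_[p] (PadicAlgCl p) z ∈ L := L.algebraMap_mem (z : ℚ_[p])

theorem norm_eval_le {m : ℕ} {P : MvPolynomial (Fin m) (PadicAlgCl p)}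
    (hP : ∀ s, ‖coeff s P‖ ≤ 1) {x : Fin m → PadicAlgCl p} (hx : ∀ i, ‖x i‖ ≤ 1) :
    ‖eval x P‖ ≤ 1 := by
  rw [eval_eq']
  refine norm_sum_le_of _ _ zero_le_one fun s _ => ?_
  rw [norm_mul, norm_prod]
  refine mul_le_one₀ (hP s) (Finset.prod_nonneg fun i _ => norm_nonneg _) ?_
  refine Finset.prod_le_one (fun i _ => norm_nonneg _) fun i _ => ?_
  rw [norm_pow]
  exact pow_le_one₀ (norm_nonneg _) (hx i)

theorem eval_mem' (L : Subalgebra ℚ_[p] (PadicAlgCl p)) {m : ℕ}
    {P : MvPolynomial (Fin m) (PadicAlgCl p)} (hP : ∀ s, coeff s P ∈ L)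
    {x : Fin m → PadicAlgCl p} (hx : ∀ i, x i ∈ L) : eval x P ∈ L := by
  rw [eval_eq']
  exact sum_mem fun s _ => mul_mem (hP s) (prod_mem fun i _ => pow_mem (hx i) _)

/-- primitive vectors with coordinates in `L` -/
def Prim (L : Subalgebra ℚ_[p] (PadicAlgCl p)) (x : Fin n → PadicAlgCl p) : Prop :=
  (∀ i, x i ∈ L) ∧ (∀ i, ‖x i‖ ≤ 1) ∧ ∃ i, ‖x i‖ = 1

theorem Prim.iterate {L : Subalgebra ℚ_[p] (PadicAlgCl p)}
    {P : Fin n → MvPolynomial (Fin n) (PadicAlgCl p)} (hP1 : ∀ i s, ‖coeff s (P i)‖ ≤ 1)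
    (hPL : ∀ i s, coeff s (P i) ∈ L) (hG : GoodPad (L : Set (PadicAlgCl p)) P)
    {x : Fin n → PadicAlgCl p} (hx : Prim L x) (m : ℕ) : Prim L ((pmap P)^[m] x) := by
  induction m with
  | zero => exact hx
  | succ m ih =>
    rw [Function.iterate_succ_apply']
    exact ⟨fun i => eval_mem' L (hPL i) ih.1, fun i => norm_eval_le (hP1 i) ih.2.1,
      (hG _ ih.1 ih.2.1 ih.2.2).1⟩

/-- **The core.** -/
theorem core (hp3 : 3 ≤ p) (k n D δ : ℕ) (d : Fin k → ℕ) : ∃ K : ℕ,
    ∀ c : (b : Fin k) → Idx n (d b) → ℤ_[p],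
      (∀ b, GoodD D (form fun i => PadicInt.toZMod (c b i))) →
    ∀ (τ : ℂ →+* PadicAlgCl p) (a : (b : Fin k) → Idx n (d b) → ℂ),
      (∀ b i, τ (a b i) = algebraMap ℤ_[p] (PadicAlgCl p) (c b i)) →
    ∀ (L : Subalgebra ℚ_[p] (PadicAlgCl p)) [FiniteDimensional ℚ_[p] L],
      Module.finrank ℚ_[p] L ≤ D →
    ∀ α : Fin k → Fin n → ℂ, (∀ b, α b ≠ 0) → (∀ b i j, τ (α b i / α b j) ∈ L) →
    ∀ G : MvPolynomial (Fin k × Fin n) ℂ, MultiHom G → G.totalDegree ≤ δ → ∀ r : ℕ,
      {m | eval (fun x => (pmap (form (a x.1)))^[bd (k * n) p D + r +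
        (bd (k * n) p D).factorial * (bd (k * n) p D).factorial * m] (α x.1) x.2) G = 0}.encard ≤ K ∨
        ∀ m, eval (fun x => (pmap (form (a x.1)))^[bd (k * n) p D + r +
          (bd (k * n) p D).factorial * (bd (k * n) p D).factorial * m] (α x.1) x.2) G = 0 := by
  classical
  choose e g hpe hg hgx using fun b => exists_multD (p := p) D n (d b)
  obtain ⟨K, hK⟩ := main_loc hp3 k n (∑ b, (e b + d b) + 1) D (by omega) (expSet k n δ)
  refine ⟨K, ?_⟩
  intro c hgood τ a ha L _ hL α hα hαL G hG hGδ r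
  obtain ⟨w, hw⟩ := hG
  let ac : ℤ_[p] →+* PadicAlgCl p := algebraMap ℤ_[p] (PadicAlgCl p)
  let P : Fin k → Fin n → MvPolynomial (Fin n) (PadicAlgCl p) := fun b =>
    mf (g b) fun i => ac (c b i)
  have hPO : ∀ b i, P b i = map ac (mf (g b) (c b) i) := fun b i =>
    (congrFun (map_mf ac (g b) (c b)) i).symm
  have hP1 : ∀ b i s, ‖coeff s (P b i)‖ ≤ 1 := by
    intro b i s
    rw [hPO, coeff_map]
    exact norm_algebraMap_le _
  have hPL : ∀ b i s, coeff s (P b i) ∈ L := by
    intro b i s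
    rw [hPO, coeff_map]
    exact algebraMap_mem' L _
  have hPd : ∀ b i, (P b i).totalDegree ≤ ∑ b, (e b + d b) + 1 := by
    intro b i
    have h1 : e b + d b ≤ ∑ b, (e b + d b) :=
      Finset.single_le_sum (f := fun b => e b + d b) (fun _ _ => Nat.zero_le _) (Finset.mem_univ b)
    have h2 := (mf_isHomogeneous (hg b) (fun i => ac (c b i)) i).totalDegree_le
    exact h2.trans (by omega)
  have hgp : ∀ b, _ := fun b => goodPad_of_goodD (hgood b) (hg b) (hpe b) (hgx b) L hL
  -- the largest coordinates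
  have hmax : ∀ b, ∃ i₀, ∀ i, ‖τ (α b i)‖ ≤ ‖τ (α b i₀)‖ := by
    intro b
    have hne : (Finset.univ : Finset (Fin n)).Nonempty := by
      obtain ⟨i, -⟩ := Function.ne_iff.1 (hα b)
      exact ⟨i, Finset.mem_univ i⟩
    obtain ⟨i₀, -, h⟩ := Finset.exists_max_image Finset.univ (fun i => ‖τ (α b i)‖) hne
    exact ⟨i₀, fun i => h i (Finset.mem_univ i)⟩
  choose i₀ hmax using hmax
  have hα0 : ∀ b, τ (α b (i₀ b)) ≠ 0 := by
    intro b h
    apply hα b
    funext i
    have h1 := hmax b i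
    rw [h, norm_zero] at h1
    exact (map_eq_zero τ).1 (norm_le_zero_iff.1 h1)
  let β : Fin k → Fin n → PadicAlgCl p := fun b i => τ (α b i / α b (i₀ b))
  have hβ : ∀ b, Prim L (β b) := by
    intro b
    refine ⟨fun i => hαL b i (i₀ b), fun i => ?_, i₀ b, ?_⟩
    · simp only [β]
      rw [map_div₀, norm_div, div_le_one (norm_pos_iff.2 (hα0 b))]
      exact hmax b i
    · simp only [β]
      rw [map_div₀, div_self (hα0 b), norm_one]
  have h1 := hK L hL P hP1 hPL hPd
    (fun b => (hgp b).1) β (fun b => (hβ b).2.1) (fun b => (hβ b).1) (fun b => (hβ b).2.2)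
    (MvPolynomial.map τ G)
    ((support_map_subset _ _).trans (support_subset_expSet hGδ)) r
  -- comparison
  have hiff : ∀ m, eval (fun x : Fin k × Fin n => (pmap (P x.1))^[m] (β x.1) x.2)
      (MvPolynomial.map τ G) = 0 ↔
      eval (fun x : Fin k × Fin n => (pmap (form (a x.1)))^[m] (α x.1) x.2) G = 0 := by
    intro m
    have h2 : ∀ b, ∃ l : PadicAlgCl p, l ≠ 0 ∧ (pmap (P b))^[m] (β b) =
        fun i => l * τ ((pmap (form (a b)))^[m] (α b) i) := by
      intro b
      obtain ⟨t, ht, htu⟩ := iterate_mult (F := form fun i => ac (c b i))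
        (form_isHomogeneous _) (map (Int.castRingHom (PadicAlgCl p)) (g b)) (β b) m
      have ht0 : t ≠ 0 := (htu fun j _ => isUnit_iff_ne_zero.2 (by
        have h3 := (hβ b).iterate (hP1 b) (hPL b) (hgp b).1 j
        have h4 := (hgp b).2 _ h3.1 h3.2.1 h3.2.2
        intro h0
        have h5 : eval ((pmap (P b))^[j] (β b)) (map (Int.castRingHom (PadicAlgCl p)) (g b)) = 0 :=
          h0
        rw [h5, norm_zero] at h4
        exact zero_ne_one h4)).ne_zero
      have h3 : (form fun i => ac (c b i)) = fun i => map τ (form (a b) i) := by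
        rw [form_map]
        congr 1
        funext i
        exact (ha b i).symm
      have h4 : β b = fun i => (τ (α b (i₀ b)))⁻¹ * τ (α b i) := by
        funext i
        simp only [β]
        rw [map_div₀, div_eq_inv_mul]
      refine ⟨t * ((τ (α b (i₀ b)))⁻¹) ^ d b ^ m,
        mul_ne_zero ht0 (pow_ne_zero _ (inv_ne_zero (hα0 b))), ?_⟩
      have h5 : (pmap (P b))^[m] (β b) = fun i => t * (pmap (form fun i => ac (c b i)))^[m] (β b) i :=
        ht
      rw [h5, h3, h4]
      rw [pmap_smul_iterate (fun i => (form_isHomogeneous (a b) i).map τ), pmap_map_iterate]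
      funext i
      ring
    choose l hl h2 using h2
    simp only [h2]
    have h3 := eval_multi (MultiHom.map hw τ) l
      (fun b i => τ ((pmap (form (a b)))^[m] (α b) i))
    have h4 : eval (fun x : Fin k × Fin n => τ ((pmap (form (a x.1)))^[m] (α x.1) x.2))
        (MvPolynomial.map τ G) =
        τ (eval (fun x : Fin k × Fin n => (pmap (form (a x.1)))^[m] (α x.1) x.2) G) := by
      rw [eval_map, eval₂_comp]
      rfl
    rw [h3, h4]
    constructor
    · intro h5
      exact (map_eq_zero τ).1 ((mul_eq_zero.1 h5).resolve_left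
        (Finset.prod_ne_zero_iff.2 fun b _ => pow_ne_zero _ (hl b)))
    · intro h5
      rw [h5, map_zero, mul_zero]
  simp only [hiff] at h1
  exact h1

end

end Pool.Agent.Helper87.LW
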