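import Mathlib
import Pool.Agent.Helper26.FU.Alg
import Pool.Agent.Helper87.LD.MainV
import Pool.Agent.Helper87.LW.Core
import Pool.Agent.Helper87.LW.Lf

/-!
# LW: the residue classes of the generators at a prime for which the field embeds
-/

set_option autoImplicit false

namespace Pool.Agent.Helper87.LW

open MvPolynomial Pool.Agent.Helper87.LD Cardinal
open Pool.Agent.Helper86.DML (pmap)
open Pool.Agent.Helper87.DMLP (primesFor not_summable_primesFor prime_of_mem_primesFor)
open Pool.Agent.Helper87.MQ (exists_field_emb_compat)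
open Pool.Agent.Helper26.LT (countable_closure)
open Pool.Agent.Helper26.FU (bd MultiHom exists_embedding exists_lift_complex exists_alg
  aleph0_lt_intermediate)

noncomputable section

/-- the coordinates of `α` lie in an extension of degree at most `D` of a purely transcendental
extension of `L` -/
def DegLE {k n : ℕ} (L : Subfield ℂ) (D : ℕ) (α : Fin k → Fin n → ℂ) : Prop :=
  ∃ (r : ℕ) (t : Fin r → ℂ) (E : Subfield ℂ) (M : IntermediateField E ℂ),
    AlgebraicIndependent L t ∧ E = Subfield.closure ((L : Set ℂ) ∪ Set.range t) ∧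
      FiniteDimensional E M ∧ Module.finrank E M ≤ D ∧ ∀ b i, α b i ∈ M

/-- an embedding for which the point is defined over an algebra of bounded dimension -/
theorem exists_embD {q : ℕ} [hq : Fact q.Prime] (L : Subfield ℂ) (hL : (L : Set ℂ).Countable)
    (φ : L →+* ℚ_[q]) {k n D : ℕ} {α : Fin k → Fin n → ℂ} (hα : DegLE L D α) :
    ∃ (τ : ℂ →+* PadicAlgCl q) (L' : Subalgebra ℚ_[q] (PadicAlgCl q)),
      FiniteDimensional ℚ_[q] L' ∧ Module.finrank ℚ_[q] L' ≤ D ∧
      (∀ z : L, τ z = algebraMap ℚ_[q] (PadicAlgCl q) (φ z)) ∧ ∀ b i j, τ (α b i / α b j) ∈ L' := by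
  obtain ⟨r, t, E, M, ht, hE, hfin, hM, hαM⟩ := hα
  have : Countable L := hL
  obtain ⟨τ₀, hτ₀⟩ := exists_lift_complex (K := L)
    ((algebraMap ℚ_[q] (PadicAlgCl q)).comp φ)
  have hL₀ : ∀ z ∈ L, τ₀ z ∈ (⊥ : IntermediateField ℚ_[q] (PadicAlgCl q)).toSubfield := by
    intro z hz
    have h1 := hτ₀ ⟨z, hz⟩
    have h2 : τ₀ z = algebraMap ℚ_[q] (PadicAlgCl q) (φ ⟨z, hz⟩) := h1
    rw [h2]
    exact (⊥ : IntermediateField ℚ_[q] (PadicAlgCl q)).algebraMap_mem _
  obtain ⟨τ, hτ, hτt⟩ := exists_embedding L hL τ₀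
    (⊥ : IntermediateField ℚ_[q] (PadicAlgCl q)).toSubfield
    (aleph0_lt_intermediate _) hL₀ ht
  have hEK : ∀ z ∈ E, τ z ∈ (⊥ : IntermediateField ℚ_[q] (PadicAlgCl q)) := by
    have h1 : E ≤ ((⊥ : IntermediateField ℚ_[q] (PadicAlgCl q)).toSubfield).comap τ := by
      rw [hE, Subfield.closure_le]
      rintro z (hz | ⟨i, rfl⟩)
      · have h2 := hL₀ z hz
        rw [← hτ z hz] at h2
        exact h2
      · exact hτt i
    exact fun z hz => h1 hz
  obtain ⟨L', hfinL', hfr, hML', -⟩ := exists_alg (⊥ : IntermediateField ℚ_[q] (PadicAlgCl q)) τ E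
    hEK M
  refine ⟨τ, L', hfinL', ?_, ?_, ?_⟩
  · rw [IntermediateField.finrank_bot, one_mul] at hfr
    exact hfr.trans hM
  · intro z
    rw [hτ z z.2]
    exact hτ₀ z
  · intro b i j
    exact hML' _ (div_mem (hαM b i) (hαM b j))

/-- the residue classes of the generators at a prime for which the field embeds -/
theorem exists_residuesW (m : ℕ) (e : Fin m → ℂ) (he : e ≠ 0) (A : Finset ℂ)
    (heA : ∀ j, e j ∈ Subfield.closure (A : Set ℂ)) :
    ∃ A' : Finset ℂ, ∀ q ∈ primesFor A', 3 ≤ q → ∃ E : Fin m → ZMod q, E ≠ 0 ∧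
      ∃ _ : Fact q.Prime, ∀ (k n D δ : ℕ) (d : Fin k → ℕ), ∃ K : ℕ,
        ∀ c : (b : Fin k) → Fin m × Idx n (d b) → ℤ,
        (∀ b, GoodD D (lf E (c b))) →
        ∀ α : Fin k → Fin n → ℂ, (∀ b, α b ≠ 0) → DegLE (Subfield.closure (A : Set ℂ)) D α →
        ∀ V : Set (MvPolynomial (Fin k × Fin n) ℂ), (∀ G ∈ V, MultiHom G ∧ G.totalDegree ≤ δ) →
        ∀ r : ℕ,
        {l | bd (k * n) q D + r + (bd (k * n) q D).factorial * (bd (k * n) q D).factorial * l ∈
          {x : ℕ | ∀ G ∈ V, eval (fun y => (pmap (lf e (c y.1)))^[x]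
            (α y.1) y.2) G = 0}}.encard ≤ K ∨
        ∀ l, bd (k * n) q D + r + (bd (k * n) q D).factorial * (bd (k * n) q D).factorial * l ∈
          {x : ℕ | ∀ G ∈ V, eval (fun y => (pmap (lf e (c y.1)))^[x]
            (α y.1) y.2) G = 0} := by
  classical
  obtain ⟨j₀, hj₀⟩ := Function.ne_iff.1 he
  set A' : Finset ℂ := A ∪ (Finset.univ.image e ∪ {(e j₀)⁻¹}) with hA'
  refine ⟨A', fun q hq hq3 => ?_⟩
  obtain ⟨hF, ι, φ, hφ⟩ := exists_field_emb_compat A' q hq
  have hej : ∀ j, e j ∈ Subring.closure (A' : Set ℂ) := fun j =>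
    Subring.subset_closure (Finset.mem_coe.2 (Finset.mem_union_right _
      (Finset.mem_union_left _ (Finset.mem_image_of_mem _ (Finset.mem_univ j)))))
  have hinv : (e j₀)⁻¹ ∈ Subring.closure (A' : Set ℂ) :=
    Subring.subset_closure (Finset.mem_coe.2 (Finset.mem_union_right _
      (Finset.mem_union_right _ (Finset.mem_singleton_self _))))
  have hle : Subring.closure (A' : Set ℂ) ≤ (Subfield.closure (A' : Set ℂ)).toSubring :=
    Subfield.subring_closure_le _
  have hAsub : (A : Set ℂ) ⊆ (A' : Set ℂ) := by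
    rw [hA', Finset.coe_union]
    exact Set.subset_union_left
  have hAA' : Subfield.closure (A' : Set ℂ) = Subfield.closure (A : Set ℂ) := by
    refine le_antisymm ?_ (Subfield.closure_mono hAsub)
    rw [Subfield.closure_le]
    intro z hz
    rw [Finset.mem_coe, hA', Finset.mem_union, Finset.mem_union, Finset.mem_image,
      Finset.mem_singleton] at hz
    rcases hz with hz | ⟨j, -, rfl⟩ | rfl
    · exact Subfield.subset_closure hz
    · exact heA j
    · exact inv_mem (heA j₀)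
  refine ⟨fun j => PadicInt.toZMod (ι ⟨e j, hej j⟩), ?_, hF, ?_⟩
  · intro h0
    have h1 : (⟨e j₀, hej j₀⟩ : Subring.closure (A' : Set ℂ)) * ⟨(e j₀)⁻¹, hinv⟩ = 1 :=
      Subtype.ext (mul_inv_cancel₀ hj₀)
    have h2 := congrArg (fun z => PadicInt.toZMod (ι z)) h1
    simp only [map_mul, map_one] at h2
    have h3 := congrFun h0 j₀
    simp only [Pi.zero_apply] at h3
    rw [h3, zero_mul] at h2
    exact zero_ne_one h2
  intro k n D δ d
  have hcL : ∀ j, e j ∈ Subfield.closure (A' : Set ℂ) := fun j => hle (hej j)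
  obtain ⟨K₁, hK⟩ := core (p := q) hq3 k n D δ d
  refine ⟨K₁, ?_⟩
  intro c hG α hα hαL V hV r
  rw [← hAA'] at hαL
  obtain ⟨τ, L', hfin, hrank, hτ, hτα⟩ := exists_embD (Subfield.closure (A' : Set ℂ))
    (countable_closure A') φ hαL
  let cp : (b : Fin k) → Idx n (d b) → ℤ_[q] := fun b =>
    lc (fun j => ι ⟨e j, hej j⟩) fun j => (c b j : ℤ_[q])
  have h1 : ∀ b, (form fun i => PadicInt.toZMod (cp b i)) =
      lf (fun j => PadicInt.toZMod (ι ⟨e j, hej j⟩)) (c b) := by
    intro b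
    rw [lf]
    congr 1
    funext i
    simp only [cp]
    rw [lc, lc, map_sum]
    refine Finset.sum_congr rfl fun j _ => ?_
    rw [map_mul, map_intCast]
  have h2 : ∀ b i, τ (lc e (fun j => (c b j : ℂ)) i) =
      algebraMap ℤ_[q] (PadicAlgCl q) (cp b i) := by
    intro b i
    simp only [cp]
    rw [lc, lc, map_sum, map_sum]
    refine Finset.sum_congr rfl fun j _ => ?_
    rw [map_mul, map_mul, map_intCast, map_intCast]
    congr 1
    have h3 := hτ ⟨e j, hcL j⟩
    rw [hφ (e j) (hej j) (hcL j)] at h3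
    exact h3
  have h4 := hK cp (fun b => by rw [h1 b]; exact hG b) τ (fun b => lc e fun j => (c b j : ℂ)) h2 L'
    hrank α hα hτα
  by_cases hall : ∀ G ∈ V, ∀ l, eval (fun y : Fin k × Fin n =>
      (pmap (lf e (c y.1)))^[bd (k * n) q D + r +
      (bd (k * n) q D).factorial * (bd (k * n) q D).factorial * l] (α y.1) y.2) G = 0
  · right
    intro l G hGV
    exact hall G hGV l
  · push Not at hall
    obtain ⟨G, hGV, l, hl⟩ := hall
    rcases h4 G (hV G hGV).1 (hV G hGV).2 r with h5 | h5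
    · left
      refine le_trans (Set.encard_le_encard ?_) h5
      intro l' hl'
      exact hl' G hGV
    · exact absurd (h5 l) hl

end

end Pool.Agent.Helper87.LW
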