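import Mathlib
import Pool.Agent.Helper87.LW.Main

/-!
# LW: the final form of the main theorem, in terms of forms
-/

set_option autoImplicit false

namespace Pool.Agent.Helper87.LW

open MvPolynomial Pool.Agent.Helper87.LD
open Pool.Agent.Helper86.DML (pmap)
open Pool.Agent.Helper26.FU (MultiHom)

noncomputable section

variable {n m s : ℕ} {d : Fin s → ℕ}

/-- the families of forms with the coefficients `c` -/
def famW (c : IdxW n m d → ℤ) (a : Fin s) : Fin m → Fin n → MvPolynomial (Fin n) ℤ :=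
  fam fun j => c ⟨a, j⟩

theorem famW_injective : Function.Injective (famW (n := n) (m := m) (d := d)) := by
  intro c c' h
  funext ⟨a, j⟩
  have h1 := fam_injective (congrFun h a)
  exact congrFun h1 j

theorem famW_surj (F : Fin s → Fin m → Fin n → MvPolynomial (Fin n) ℤ)
    (hF : ∀ a j i, (F a j i).IsHomogeneous (d a)) : ∃ c : IdxW n m d → ℤ, famW c = F := by
  choose c hc using fun a => fam_surj (F a) (hF a)
  exact ⟨fun j => c j.1 j.2, funext fun a => hc a⟩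

/-- the tuples of families of forms with coefficients in `[-B, B]` -/
def boxW (n m : ℕ) {s : ℕ} (d : Fin s → ℕ) (B : ℕ) :
    Set (Fin s → Fin m → Fin n → MvPolynomial (Fin n) ℤ) :=
  {F | ∀ a j i, (F a j i).IsHomogeneous (d a) ∧ ∀ t, |coeff t (F a j i)| ≤ (B : ℤ)}

theorem boxW_eq (B : ℕ) : boxW n m d B = famW '' {c : IdxW n m d → ℤ | ∀ i, |c i| ≤ (B : ℤ)} := by
  ext F
  constructor
  · intro hF
    obtain ⟨c, rfl⟩ := famW_surj (d := d) F fun a j i => (hF a j i).1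
    refine ⟨c, fun i => ?_, rfl⟩
    have h2 := (hF i.1 i.2.1 i.2.2.1).2 i.2.2.2.1
    rwa [famW, fam, coeff_form] at h2
  · rintro ⟨c, hc, rfl⟩ a j i
    refine ⟨form_isHomogeneous _ i, fun t => ?_⟩
    by_cases ht : t ∈ ex n (d a)
    · rw [famW, fam, coeff_form _ i ⟨t, ht⟩]
      exact hc _
    · rw [famW, fam, coeff_form_of_notMem _ i ht, abs_zero]
      exact Int.natCast_nonneg B

theorem boxW_finite (B : ℕ) : (boxW n m d B).Finite := by
  rw [boxW_eq]
  exact (box_finite B).image _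

/-- the combination of a family -/
def combW {n m : ℕ} (e : Fin m → ℂ) (F : Fin m → Fin n → MvPolynomial (Fin n) ℤ) (i : Fin n) :
    MvPolynomial (Fin n) ℂ :=
  ∑ j, C (e j) * map (Int.castRingHom ℂ) (F j i)

theorem combW_famW (e : Fin m → ℂ) (c : IdxW n m d → ℤ) (a : Fin s) :
    combW e (famW c a) = lf e fun j => c ⟨a, j⟩ :=
  funext fun i => comb_fam e (fun j => c ⟨a, j⟩) i

/-- the return set -/
def retW {k n : ℕ} (P : Fin k → Fin n → MvPolynomial (Fin n) ℂ) (α : Fin k → Fin n → ℂ)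
    (V : Set (MvPolynomial (Fin k × Fin n) ℂ)) : Set ℕ :=
  {x | ∀ G ∈ V, eval (fun y => (pmap (P y.1))^[x] (α y.1) y.2) G = 0}

/-- the forms which vanish on the line through `α`, in one group of variables -/
def line1 (α : Fin n → ℂ) : Set (MvPolynomial (Fin 1 × Fin n) ℂ) :=
  (fun G => rename (fun i => ((0 : Fin 1), i)) G) '' lineForms α

theorem line1_hom (α : Fin n → ℂ) : ∀ G ∈ line1 α, MultiHom G ∧ G.totalDegree ≤ 1 := by
  classical
  rintro G ⟨H, ⟨i, j, rfl⟩, rfl⟩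
  have h0 : (C (α i) * X j - C (α j) * X i : MvPolynomial (Fin n) ℂ).IsHomogeneous 1 :=
    IsHomogeneous.sub (isHomogeneous_C_mul_X _ _) (isHomogeneous_C_mul_X _ _)
  have h1 : (rename (fun i => ((0 : Fin 1), i)) (C (α i) * X j - C (α j) * X i :
      MvPolynomial (Fin n) ℂ)).IsHomogeneous 1 := h0.rename_isHomogeneous
  refine ⟨⟨fun _ => 1, fun t ht b => ?_⟩, h1.totalDegree_le⟩
  have h3 : t.degree = 1 := by
    by_contra hne
    exact mem_support_iff.1 ht (h1.coeff_eq_zero hne)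
  rw [Finsupp.degree_eq_sum, Fintype.sum_prod_type, Fin.sum_univ_one] at h3
  rw [Subsingleton.elim b 0]
  exact h3

theorem retW_line1 (P : Fin n → MvPolynomial (Fin n) ℂ) (α : Fin n → ℂ) :
    retW (fun _ : Fin 1 => P) (fun _ => α) (line1 α) =
      {x | ∀ G ∈ lineForms α, eval ((pmap P)^[x] α) G = 0} := by
  ext x
  constructor
  · intro h G hG
    have h1 := h _ ⟨G, hG, rfl⟩
    rw [eval_rename] at h1
    exact h1
  · rintro h _ ⟨G, hG, rfl⟩
    rw [eval_rename]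
    exact h G hG

/-- **Final form.** -/
theorem lw_final (n D s : ℕ) (hdens : DensOK n D s) (m : ℕ) (e : Fin m → ℂ) (he : e ≠ 0)
    (A : Finset ℂ) (heA : ∀ j, e j ∈ Subfield.closure (A : Set ℂ)) (ε : ℝ) (hε : 0 < ε) :
    ∃ (Q n₀ : ℕ → ℕ) (d₀ : ℕ), (∀ k, 1 ≤ Q k) ∧ ∀ d : Fin s → ℕ, (∀ a, d₀ ≤ d a) →
      ∃ (K : ℕ → ℕ → ℕ) (B₀ : ℕ), ∀ B : ℕ, B₀ ≤ B →
      (boxW n m d B).Finite ∧ (1 - ε) * ((boxW n m d B).ncard : ℝ) ≤
        (({F ∈ boxW n m d B |
          (∀ a, ∀ z : Fin n → ℂ, (∀ i, eval z (combW e (F a) i) = 0) → z = 0) ∧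
          (∀ (k : ℕ) (σ : Fin k → Fin s) (α : Fin k → Fin n → ℂ), (∀ b, α b ≠ 0) →
            DegLE (Subfield.closure (A : Set ℂ)) D α →
            ∀ (δ : ℕ) (V : Set (MvPolynomial (Fin k × Fin n) ℂ)),
              (∀ G ∈ V, MultiHom G ∧ G.totalDegree ≤ δ) →
              ∃ E T : Finset ℕ, E.card ≤ K k δ ∧ (∀ a ∈ T, a < n₀ k + Q k) ∧
                retW (fun b => combW e (F (σ b))) α V =
                  {x | x ∈ E ∨ ∃ a ∈ T, ∃ j, x = a + Q k * j}) ∧
          ∀ (a : Fin s) (α : Fin n → ℂ), α ≠ 0 →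
            DegLE (Subfield.closure (A : Set ℂ)) D (fun _ : Fin 1 => α) →
            (∃ j : ℕ, 1 ≤ j ∧ ∃ t : ℂ, (pmap (combW e (F a)))^[j] α = t • α) →
            ∃ t : ℂ, (pmap (combW e (F a)))^[Q 1] α = t • α}).ncard : ℝ) := by
  obtain ⟨d₀, n₀, Q, hQ, h⟩ := lw_main n D s hdens m e he A heA ε hε
  refine ⟨Q, n₀, d₀, hQ, fun d hd => ?_⟩
  obtain ⟨K, B₀, hB₀⟩ := h d hd
  refine ⟨K, B₀, fun B hB => ⟨boxW_finite B, ?_⟩⟩
  have h1 := hB₀ B hB
  rw [← box_ncard] at h1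
  have h2 : (boxW n m d B).ncard = {c : IdxW n m d → ℤ | ∀ i, |c i| ≤ (B : ℤ)}.ncard := by
    rw [boxW_eq, Set.ncard_image_of_injective _ famW_injective]
  rw [h2]
  refine h1.trans (Nat.cast_le.2 (Set.ncard_le_ncard_of_injOn famW ?_
    famW_injective.injOn ((boxW_finite B).subset fun F hF => hF.1)))
  rintro c ⟨hc, hE, hD⟩
  have hmain : ∀ (k : ℕ) (σ : Fin k → Fin s) (α : Fin k → Fin n → ℂ), (∀ b, α b ≠ 0) →
      DegLE (Subfield.closure (A : Set ℂ)) D α →
      ∀ (δ : ℕ) (V : Set (MvPolynomial (Fin k × Fin n) ℂ)),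
        (∀ G ∈ V, MultiHom G ∧ G.totalDegree ≤ δ) →
        IsAPU (n₀ k) (Q k) (K k δ) (retW (fun b => combW e (famW c (σ b))) α V) := by
    intro k σ α hα hαD δ V hV
    simp only [combW_famW]
    exact hD k σ α hα hαD δ V hV
  refine ⟨boxW_eq (d := d) B ▸ ⟨c, hc, rfl⟩, ?_, ?_, ?_⟩
  · intro a z hz
    rw [combW_famW] at hz
    exact hE a z hz
  · intro k σ α hα hαD δ V hV
    exact hmain k σ α hα hαD δ V hV
  · intro a α hα hαD hper
    have h3 := hmain 1 (fun _ => a) (fun _ => α) (fun _ => hα) hαD 1 (line1 α) (line1_hom α)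
    rw [retW_line1] at h3
    rw [combW_famW] at h3 hper ⊢
    exact per_of_isAP (d := d a) (fun i => form_isHomogeneous _ i) (hE a) hα
      (isAP_of_isAPU h3) hper

end

end Pool.Agent.Helper87.LW
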