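import Mathlib
import Pool.Agent.Helper52.DEG.Dens
import Pool.Agent.Helper87.LW.Final
import Pool.Agent.Helper87.LW1.Dens

/-!
# LW: the cases in which the density of good reductions is large enough
-/

set_option autoImplicit false

namespace Pool.Agent.Helper87.LW

/-- the density of the tuples of maps with good reduction -/
theorem densOK (N D s : ℕ) (hN : N = 1 ∨ N = 2 ∨ (N = 3 ∧ D = 1 ∧ s = 1)) :
    DensOK (N + 1) D s := by
  rcases hN with rfl | rfl | ⟨rfl, rfl, rfl⟩
  · exact densOK_of_const (Pool.Agent.Helper87.LW1.good_densityD_line D) s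
  · obtain ⟨κ, hκ, h⟩ := Pool.Agent.Helper52.DEG.good_densityD D
    exact densOK_of_const ⟨κ, 5, hκ, fun p _ hp => h p hp⟩ s
  · exact densOK_three

end Pool.Agent.Helper87.LW
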